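import Mathlib
import Pool.Agent.H320R2.LD.Final
import Pool.Agent.H320R2.LD.WA
import Pool.Agent.Q121.CubeLower

set_option autoImplicit false

/-!
# The discrepancy of random subsets of hypercube neighbourhoods

With probability tending to `1` the discrepancy of the random family `S_n` is of order `√n`.
The upper bound holds for every realisation.
-/

namespace Pool.Agent.Results.MP_3166d6_co.ThetaSqrt

open Finset Filter Topology

/-- The discrepancy of a family `S` of subsets of a finite set `V`, indexed by a finite set `J`: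
the minimum over all colourings `χ : V → {1, -1}` of the maximum over `j` of
`|∑ x ∈ S j, χ x|`. -/
def disc {V J : Type} [Fintype V] [Fintype J] [DecidableEq V] (S : J → Finset V) : ℕ :=
  (univ : Finset (V → ℤˣ)).inf' ⟨fun _ => 1, mem_univ _⟩
    (fun χ => (univ : Finset J).sup (fun j => (∑ x ∈ S j, (χ x : ℤ)).natAbs))

/-- The neighbourhood of a vertex in the `n`-dimensional hypercube: the vertices which differ from
`v` in exactly one coordinate. -/
def nbhd {n : ℕ} (v : Fin n → Bool) : Finset (Fin n → Bool) :=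
  univ.filter (fun u => hammingDist v u = 1)

/-- All realisations: the families of sets `S v ⊆ N(v)`, `v` a vertex of the hypercube. -/
def Realisations (n : ℕ) : Finset ((Fin n → Bool) → Finset (Fin n → Bool)) :=
  Fintype.piFinset (fun v => (nbhd v).powerset)

open scoped Classical in
/-- The probability of the event `E`: as all the choices are independent and unbiased, the random
family is uniformly distributed on the set of all realisations. -/
noncomputable def prob (n : ℕ) (E : ((Fin n → Bool) → Finset (Fin n → Bool)) → Prop) : ℝ :=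
  #{S ∈ Realisations n | E S} / #(Realisations n)

/-! ### The hypercube -/

lemma nbhd_eq {n : ℕ} (v : Fin n → Bool) :
    nbhd v = univ.image (fun i => Function.update v i (!(v i))) := by
  ext u
  simp only [nbhd, mem_filter, mem_univ, true_and, mem_image]
  constructor
  · intro h
    rw [hammingDist, card_eq_one] at h
    obtain ⟨i, hi⟩ := h
    refine ⟨i, ?_⟩
    funext j
    by_cases hj : j = i
    · subst hj
      rw [Function.update_self]
      have : j ∈ ({j} : Finset (Fin n)) := mem_singleton_self j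
      rw [← hi, mem_filter] at this
      have h2 := this.2
      cases h3 : v j <;> cases h4 : u j <;> simp_all
    · rw [Function.update_of_ne hj]
      have : j ∉ ({i} : Finset (Fin n)) := by simpa using hj
      rw [← hi, mem_filter] at this
      simpa using this
  · rintro ⟨i, rfl⟩
    rw [hammingDist, card_eq_one]
    refine ⟨i, ?_⟩
    ext j
    rw [mem_filter, mem_singleton]
    by_cases hj : j = i
    · subst hj
      simp
    · simp [hj]

lemma card_nbhd {n : ℕ} (v : Fin n → Bool) : #(nbhd v) = n := by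
  rw [nbhd_eq, card_image_of_injective, card_univ, Fintype.card_fin]
  intro i j h
  by_contra hij
  have := congrFun h i
  simp only [Function.update_self] at this
  rw [Function.update_of_ne hij] at this
  cases h3 : v i <;> simp_all

lemma mem_nbhd_comm {n : ℕ} (u v : Fin n → Bool) : u ∈ nbhd v ↔ v ∈ nbhd u := by
  simp only [nbhd, mem_filter, mem_univ, true_and, hammingDist_comm]

/-- The upper bound, for every realisation. -/
lemma upper : ∃ C : ℝ, 0 < C ∧ ∀ n : ℕ, ∀ S ∈ Realisations n, (disc S : ℝ) ≤ C * √n := by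
  obtain ⟨C, hC, h⟩ := Pool.Agent.H320R2.LD.WA.sets_of_main Pool.Agent.H320R2.LD.main
  refine ⟨C, hC, ?_⟩
  intro n S hS
  rw [Realisations, Fintype.mem_piFinset] at hS
  have hS' : ∀ v, S v ⊆ nbhd v := fun v => mem_powerset.1 (hS v)
  set e := Fintype.equivFin (Fin n → Bool) with he
  obtain ⟨x, hx1, hx2⟩ := h n _ _ (fun i => (S (e.symm i)).map e.toEmbedding) (by
    intro i
    rw [card_map]
    exact (card_le_card (hS' _)).trans (card_nbhd _).le) (by
    intro j
    have h1 : (univ.filter (fun i => j ∈ (S (e.symm i)).map e.toEmbedding)) ⊆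
        (nbhd (e.symm j)).map e.toEmbedding := by
      intro i hi
      rw [mem_filter, mem_map_equiv] at hi
      rw [mem_map_equiv, mem_nbhd_comm]
      exact hS' _ hi.2
    refine (card_le_card h1).trans ?_
    rw [card_map, card_nbhd])
  have hu : ∀ j, ∃ y : ℤˣ, (y : ℤ) = x j := by
    intro j
    rcases hx1 j with h | h
    · exact ⟨1, by rw [h]; rfl⟩
    · exact ⟨-1, by rw [h]; rfl⟩
  choose y hy using hu
  have h2 : disc S ≤ (univ : Finset (Fin n → Bool)).sup
      (fun v => (∑ a ∈ S v, ((y (e a) : ℤˣ) : ℤ)).natAbs) := by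
    unfold disc
    exact inf'_le _ (mem_univ (fun a => y (e a)))
  have h3 : ((univ : Finset (Fin n → Bool)).sup
      (fun v => (∑ a ∈ S v, ((y (e a) : ℤˣ) : ℤ)).natAbs)) ≤ ⌊C * √n⌋₊ := by
    apply Finset.sup_le
    intro v _
    apply Nat.le_floor
    have h4 := hx2 (e v)
    rw [sum_map] at h4
    simp only [Equiv.symm_apply_apply, Equiv.coe_toEmbedding] at h4
    rw [Nat.cast_natAbs]
    push_cast
    simp only [hy]
    exact h4
  calc (disc S : ℝ) ≤ ((⌊C * √n⌋₊ : ℕ) : ℝ) := by exact_mod_cast h2.trans h3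
    _ ≤ C * √n := Nat.floor_le (by positivity)

/-- Few realisations have small discrepancy. -/
lemma few (n K : ℕ) : #{S ∈ Realisations n | disc S ≤ K} ≤
    (2 * ((2 * K + 1) * n.choose (n / 2))) ^ (2 ^ n) := by
  have h1 : {S ∈ Realisations n | disc S ≤ K} ⊆ (univ : Finset ((Fin n → Bool) → ℤˣ)).biUnion
      (fun χ => Fintype.piFinset (fun v => {T ∈ (nbhd v).powerset |
        (∑ x ∈ T, (χ x : ℤ)).natAbs ≤ K})) := by
    intro S hS
    rw [mem_filter, Realisations, Fintype.mem_piFinset] at hS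
    obtain ⟨χ, _, hχ⟩ := exists_mem_eq_inf' (s := (univ : Finset ((Fin n → Bool) → ℤˣ)))
      ⟨fun _ => 1, mem_univ _⟩
      (fun χ => (univ : Finset (Fin n → Bool)).sup (fun j => (∑ x ∈ S j, (χ x : ℤ)).natAbs))
    rw [mem_biUnion]
    refine ⟨χ, mem_univ _, ?_⟩
    rw [Fintype.mem_piFinset]
    intro v
    rw [mem_filter]
    refine ⟨hS.1 v, ?_⟩
    have h2 : disc S ≤ K := hS.2
    unfold disc at h2
    rw [hχ] at h2
    exact (le_sup (f := fun j => (∑ x ∈ S j, (χ x : ℤ)).natAbs) (mem_univ v)).trans h2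
  refine (card_le_card h1).trans (card_biUnion_le.trans ?_)
  have h2 : ∀ χ : (Fin n → Bool) → ℤˣ, #(Fintype.piFinset (fun v => {T ∈ (nbhd v).powerset |
        (∑ x ∈ T, (χ x : ℤ)).natAbs ≤ K})) ≤ ((2 * K + 1) * n.choose (n / 2)) ^ (2 ^ n) := by
    intro χ
    rw [Fintype.card_piFinset]
    calc ∏ v, #{T ∈ (nbhd v).powerset | (∑ x ∈ T, (χ x : ℤ)).natAbs ≤ K}
        ≤ ∏ _v : Fin n → Bool, ((2 * K + 1) * n.choose (n / 2)) := by
          refine prod_le_prod' (fun v _ => ?_)
          have := Q121.CubeLower.few_subsets (nbhd v) (fun x => (χ x : ℤ)) (fun a => by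
            rcases Int.units_eq_one_or (χ a) with h | h <;> rw [h] <;> simp) K
          rw [card_nbhd] at this
          exact this
      _ = ((2 * K + 1) * n.choose (n / 2)) ^ (2 ^ n) := by
          rw [prod_const, card_univ]
          simp
  calc ∑ χ : (Fin n → Bool) → ℤˣ, #(Fintype.piFinset (fun v => {T ∈ (nbhd v).powerset |
        (∑ x ∈ T, (χ x : ℤ)).natAbs ≤ K}))
      ≤ ∑ _χ : (Fin n → Bool) → ℤˣ, ((2 * K + 1) * n.choose (n / 2)) ^ (2 ^ n) :=
        sum_le_sum (fun χ _ => h2 χ)
    _ = (2 * ((2 * K + 1) * n.choose (n / 2))) ^ (2 ^ n) := by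
        have hc : Fintype.card ((Fin n → Bool) → ℤˣ) = 2 ^ (2 ^ n) := by simp
        rw [sum_const, smul_eq_mul, card_univ, hc, ← mul_pow]

lemma card_Realisations (n : ℕ) : #(Realisations n) = (2 ^ n) ^ (2 ^ n) := by
  rw [Realisations, Fintype.card_piFinset]
  simp only [card_powerset, card_nbhd, prod_const, card_univ]
  simp

/-- The probability that the discrepancy is small. -/
lemma prob_small (n : ℕ) (hn : 64 ≤ n) :
    prob n (fun S => (disc S : ℝ) < 1 / 16 * √n) ≤ (1 / 2) ^ (2 ^ n) := by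
  classical
  set K := ⌊1 / 16 * √(n : ℝ)⌋₊ with hK
  have hs8 : (8 : ℝ) ≤ √(n : ℝ) := by
    rw [show (8 : ℝ) = √64 by rw [show (64 : ℝ) = 8 ^ 2 by norm_num]; simp]
    exact Real.sqrt_le_sqrt (by exact_mod_cast hn)
  have h1 : #{S ∈ Realisations n | (disc S : ℝ) < 1 / 16 * √n} ≤
      (2 * ((2 * K + 1) * n.choose (n / 2))) ^ (2 ^ n) := by
    refine le_trans (card_le_card ?_) (few n K)
    intro S hS
    rw [mem_filter] at hS ⊢
    exact ⟨hS.1, Nat.le_floor hS.2.le⟩
  have hpos : (0 : ℝ) < (2 ^ n) ^ (2 ^ n) := by positivity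
  have hch : (n.choose (n / 2) : ℝ) * √n ≤ 2 ^ n := by
    have h := Q121.CubeLower.choose_half n
    have h' : ((n.choose (n / 2) : ℝ)) ^ 2 * n ≤ (2 ^ n) ^ 2 := by exact_mod_cast h
    apply le_of_sq_le_sq _ (by positivity)
    rw [mul_pow, Real.sq_sqrt (by positivity)]
    exact h'
  have hK1 : (K : ℝ) ≤ 1 / 16 * √n := Nat.floor_le (by positivity)
  have hmain : (2 * ((2 * (K : ℝ) + 1) * n.choose (n / 2))) ≤ 1 / 2 * 2 ^ n := by
    have h2 : 2 * (K : ℝ) + 1 ≤ 1 / 4 * √n := by linarith
    calc (2 * ((2 * (K : ℝ) + 1) * n.choose (n / 2)))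
        ≤ 2 * ((1 / 4 * √n) * n.choose (n / 2)) := by gcongr
      _ = 1 / 2 * (n.choose (n / 2) * √n) := by ring
      _ ≤ 1 / 2 * 2 ^ n := by gcongr
  unfold prob
  rw [card_Realisations]
  push_cast
  rw [div_le_iff₀ hpos]
  calc (#{S ∈ Realisations n | (disc S : ℝ) < 1 / 16 * √n} : ℝ)
      ≤ (((2 * ((2 * K + 1) * n.choose (n / 2))) ^ (2 ^ n) : ℕ) : ℝ) := by
        exact_mod_cast h1
    _ = (2 * ((2 * (K : ℝ) + 1) * n.choose (n / 2))) ^ (2 ^ n) := by push_cast; ring
    _ ≤ (1 / 2 * 2 ^ n) ^ (2 ^ n) := by gcongr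
    _ = (1 / 2) ^ (2 ^ n) * (2 ^ n) ^ (2 ^ n) := by rw [mul_pow]

/-- **The answer.** The discrepancy of `S_n` is `Θ(√n)` with probability tending to `1`; the upper
bound `C √n` holds for every realisation. -/
theorem result : ∃ c C : ℝ, 0 < c ∧ 0 < C ∧
    (∀ n : ℕ, ∀ S ∈ Realisations n, (disc S : ℝ) ≤ C * √n) ∧
    Tendsto (fun n : ℕ => prob n (fun S => c * √n ≤ disc S ∧ (disc S : ℝ) ≤ C * √n))
      atTop (𝓝 1) := by
  classical
  obtain ⟨C, hC, hup⟩ := upper
  refine ⟨1 / 16, C, by norm_num, hC, hup, ?_⟩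
  have hle1 : ∀ n : ℕ, prob n (fun S => 1 / 16 * √n ≤ disc S ∧ (disc S : ℝ) ≤ C * √n) ≤ 1 := by
    intro n
    unfold prob
    apply div_le_one_of_le₀ _ (by positivity)
    exact_mod_cast card_filter_le _ _
  have hge : ∀ n : ℕ, 64 ≤ n → 1 - (1 / 2 : ℝ) ^ (2 ^ n) ≤
      prob n (fun S => 1 / 16 * √n ≤ disc S ∧ (disc S : ℝ) ≤ C * √n) := by
    intro n hn
    have h1 := prob_small n hn
    have hpos : (0 : ℝ) < #(Realisations n) := by rw [card_Realisations]; positivity
    have h2 : prob n (fun S => (disc S : ℝ) < 1 / 16 * √n) +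
        prob n (fun S => 1 / 16 * √n ≤ disc S ∧ (disc S : ℝ) ≤ C * √n) = 1 := by
      unfold prob
      rw [← add_div, div_eq_one_iff_eq hpos.ne']
      rw [← Nat.cast_add, Nat.cast_inj,
        ← card_filter_add_card_filter_not (s := Realisations n)
          (fun S => (disc S : ℝ) < 1 / 16 * √n)]
      congr 2
      ext S
      simp only [mem_filter, not_lt]
      exact and_congr_right (fun hS => ⟨fun h => h.1, fun h => ⟨h, hup n S hS⟩⟩)
    linarith
  have hlim : Tendsto (fun n : ℕ => 1 - (1 / 2 : ℝ) ^ (2 ^ n)) atTop (𝓝 1) := by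
    have h1 : Tendsto (fun n : ℕ => (1 / 2 : ℝ) ^ n) atTop (𝓝 0) :=
      tendsto_pow_atTop_nhds_zero_of_lt_one (by norm_num) (by norm_num)
    have h2 : Tendsto (fun n : ℕ => 2 ^ n) atTop atTop :=
      tendsto_pow_atTop_atTop_of_one_lt (by norm_num)
    have h3 := h1.comp h2
    have h4 := tendsto_const_nhds (x := (1 : ℝ)).sub h3
    simpa using h4
  refine tendsto_of_tendsto_of_tendsto_of_le_of_le' hlim tendsto_const_nhds ?_
    (Eventually.of_forall hle1)
  filter_upwards [eventually_ge_atTop 64] with n hn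
  exact hge n hn

end Pool.Agent.Results.MP_3166d6_co.ThetaSqrt
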